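import Pool.Agent.KS6_89.RI.Fin

set_option autoImplicit false

/-!
# Randomized integration of smooth functions: there is no factor depending on the dimension

`F_d^k` is the class of the functions on `[0,1]^d` all of whose partial derivatives of order at most
`k` are bounded by `1`. We prove `e^ran(n, F_d^k) ≤ C_k n^(-k/d - 1/2)` for all `d` and `n`, with the
constant `C_k = 3 (12 k 4^(k+2))^k`. So `t = 0` is admissible in the bound
`e^ran(n, F_d^k) ≤ C d^t n^(-k/d - 1/2)`, and it is the smallest admissible exponent: `t_k = 0`, and
the infimum in the definition of `t_k` is a minimum. (The deterministic error has the factor `d`.)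

The definitions are those of `Pool.Agent.N799.RI` (library):
* `cube d = [0,1]^d`, `openCube d = (0,1)^d`;
* `FF d k`: the continuous functions on the cube which are `C^k` in the open cube, with
  `|D^α f| ≤ 1` there for all `|α| ≤ k`;
* `Alg X`: deterministic adaptive algorithms (decision trees); `run` is the output, `card` the number
  of function values;
* `RAlg d`: a randomized algorithm, a family of deterministic algorithms indexed by a probability
  space, without conditions of measurability; `cardOn` and `err` are the cardinality and the error on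
  a class, defined with upper integrals (`upper`);
* `eran n d k = e^ran(n, F_d^k)` is the infimum of the errors of the randomized algorithms of
  cardinality at most `n` on `F_d^k`;
* `BM`: bounded and measurable.

Proof. In one variable one takes an orthonormal system adapted to the piecewise polynomials of degree
less than `k` on the dyadic intervals. The tensor products `e_m` with `∑ i, 2 ^ l(m_i) ≤ d 2 ^ L`
(roughly; `l (m_i)` is the dyadic level) are at most `(6 k 2 ^ L) ^ d` in number, and the distance in
`L_2` of `f ∈ F_d^k` to their span is at most `2 ^ (1/2 - k L)`, because only `d` is large and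
the pure derivatives `∂_i^k f` are bounded. The coefficients are computed recursively from level to
level by importance sampling with the Christoffel density of the span, so that a constant number of
function values per coefficient suffices; the remaining function values are used for the Monte
Carlo method applied to the difference.
-/

namespace Pool.Agent.Results.MP_7d5d9e_an.NoDimensionFactor

open MeasureTheory Pool.Agent.N799.RI

/-- **No dependence on the dimension.** Let `k` be a natural number and `C = 3 (12 k 4^(k+2))^k`.
(1) For all `d, n ≥ 1` there is a randomized linear formula `∑ j, w_j f(x_j)` with exactly `n`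
function values (random points `x_j` of the cube and random weights `w_j`, not depending on `f`)
whose mean error is at most `C n^(-k/d - 1/2)` for every `f ∈ F_d^k`. (2) Hence
`e^ran(n, F_d^k) ≤ C n^(-k/d - 1/2)` for all `d, n ≥ 1`. (3) `0` is the least real `t` for which there
is a constant `C` with `e^ran(n, F_d^k) ≤ C d^t n^(-k/d - 1/2)` for all `d, n ≥ 1`. -/
theorem result (k : ℕ) :
    (∀ d n : ℕ, 1 ≤ d → 1 ≤ n →
      ∃ (Ω : Type) (_ : MeasurableSpace Ω) (P : Measure Ω) (_ : IsProbabilityMeasure P)
        (x : Fin n → Ω → (Fin d → ℝ)) (w : Fin n → Ω → ℝ),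
        (∀ j, Measurable (x j)) ∧ (∀ j ω, x j ω ∈ cube d) ∧ (∀ j, BM (w j)) ∧
        ∀ f ∈ FF d k, (Measurable fun ω => |(∫ x in cube d, f x) - ∑ j, w j ω * f (x j ω)|) ∧
          (Integrable (fun ω => |(∫ x in cube d, f x) - ∑ j, w j ω * f (x j ω)|) P) ∧
          (∫ ω, |(∫ x in cube d, f x) - ∑ j, w j ω * f (x j ω)| ∂P ≤
          3 * (12 * k * 4 ^ (k + 2) : ℝ) ^ k * (n : ℝ) ^ (-(k : ℝ) / d - 1 / 2))) ∧
    (∀ d n : ℕ, 1 ≤ d → 1 ≤ n → eran n d k ≤
      ENNReal.ofReal (3 * (12 * k * 4 ^ (k + 2) : ℝ) ^ k * (n : ℝ) ^ (-(k : ℝ) / d - 1 / 2))) ∧
    IsLeast {t : ℝ | ∃ C : ℝ, ∀ d n : ℕ, 1 ≤ d → 1 ≤ n →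
      eran n d k ≤ ENNReal.ofReal (C * (d : ℝ) ^ t * (n : ℝ) ^ (-(k : ℝ) / d - 1 / 2))} 0 :=
  ⟨fun d n hd hn => Pool.Agent.KS6_89.RI.formula k d n hd hn,
    fun d n hd hn => Pool.Agent.KS6_89.RI.eran_le k d n hd hn, Pool.Agent.KS6_89.RI.isLeast k⟩

end Pool.Agent.Results.MP_7d5d9e_an.NoDimensionFactor
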